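import Pool.Agent.A1C.FIN3

/-!
# The `A₁`-conjecture

Let `G` be a connected `U₂^⊥` ranked group with involutions and `C < G` a definable connected proper `TI` subgroup of finite even
index in its normaliser. Then `G` is isomorphic to `PGL₂(K)` for some field `K`.
-/

namespace Pool.Agent.Results.MP_d532e5_lc.RankedPGL2

open Pool.Agent.A1C

universe u v w

theorem result {L : FirstOrder.Language.{v, w}} {G : Type u} [Group G] [L.Structure G]
    -- multiplication is definable and `G` is ranked
    (hmul : LDef L {z : Fin 3 → G | z 0 * z 1 = z 2})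
    (R : RankFun L G)
    -- `G` is connected
    (hconn : ∀ H : Subgroup G, LDef₁ L (H : Set G) → H.index ≠ 0 → H = ⊤)
    -- no infinite elementary abelian `2`-subgroup
    (hU2 : ∀ E : Subgroup G, (∀ x ∈ E, x * x = 1) → (E : Set G).Finite)
    -- there is an involution
    (hinv : ∃ x : G, x * x = 1 ∧ x ≠ 1)
    -- `C` is definable, connected and proper
    (C : Subgroup G) (hC : LDef₁ L (C : Set G))
    (hCconn : ∀ H : Subgroup G, H ≤ C → LDef₁ L (H : Set G) → H.relIndex C ≠ 0 → H = C)
    (hCtop : C ≠ ⊤)
    -- `C` is `TI`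
    (hTI : ∀ g : G, C.map (MulAut.conj g).toMonoidHom ≠ C →
      C ⊓ C.map (MulAut.conj g).toMonoidHom = ⊥)
    -- the index of `C` in its normaliser is finite and even
    (hfin : C.relIndex (Subgroup.normalizer (C : Set G)) ≠ 0)
    (heven : Even (C.relIndex (Subgroup.normalizer (C : Set G)))) :
    ∃ (K : Type u) (_ : Field K), Nonempty (G ≃* Matrix.ProjGenLinGroup (Fin 2) K) := by
  let _ : Univ G := R.toUniv
  let _ : DGrp G G := R.toDGrp hmul
  have hdf : ∀ S : Set G, Df S ↔ LDef₁ L S := fun S => fin2_df_iff R hmul S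
  have hcj : ∀ g : G, cj C g = C.map (MulAut.conj g⁻¹).toMonoidHom := by
    intro g
    ext x
    rw [mem_cj, Subgroup.mem_map]
    constructor
    · intro h
      refine ⟨g * x * g⁻¹, h, ?_⟩
      simp only [MulEquiv.coe_toMonoidHom, MulAut.conj_apply]
      group
    · rintro ⟨y, hy, rfl⟩
      simp only [MulEquiv.coe_toMonoidHom, MulAut.conj_apply]
      have h1 : g * (g⁻¹ * y * g⁻¹⁻¹) * g⁻¹ = y := by group
      rw [h1]
      exact hy
  have H : Hyp G :=
    { C := C
      conn := by
        refine ⟨by rw [Subgroup.coe_top]; exact Df.univ, ?_⟩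
        intro K _ hK hne
        refine hconn K ((hdf _).1 hK) ?_
        rwa [Subgroup.relIndex_top_right] at hne
      u2 := hU2
      exInv := hinv
      connC := ⟨(hdf _).2 hC, fun K hKC hK hne => hCconn K hKC ((hdf _).1 hK) hne⟩
      neTop := hCtop
      tiC := by
        intro g hg
        rw [hcj] at hg ⊢
        rw [inf_comm]
        exact hTI _ hg
      index_ne := hfin
      even := heven }
  exact hyp_pgl H

end Pool.Agent.Results.MP_d532e5_lc.RankedPGL2
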